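import Mathlib
import Pool.Agent.Helper28.CQ.Final

set_option autoImplicit false

namespace Pool.Agent.Results.MP_74736d_al.CycleGraphProducts

/-- The graph product `C_n F` over the `n`-cycle (vertex set `Z/n`, `i` adjacent to `i + 1`) with
all vertex groups equal to `F`: the free product of copies of `F` indexed by `Z/n`, modulo the
normal closure of the commutators of elements of the `i`-th and of the `(i+1)`-st factor. -/
abbrev CycProd (n : ℕ) (F : Type) [Group F] : Type :=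
  (Monoid.CoprodI fun _ : ZMod n => F) ⧸
    Subgroup.normalClosure {x : Monoid.CoprodI fun _ : ZMod n => F | ∃ (i : ZMod n) (g h : F),
      x = Monoid.CoprodI.of (M := fun _ : ZMod n => F) (i := i) g *
        Monoid.CoprodI.of (M := fun _ : ZMod n => F) (i := i + 1) h *
        (Monoid.CoprodI.of (M := fun _ : ZMod n => F) (i := i) g)⁻¹ *
        (Monoid.CoprodI.of (M := fun _ : ZMod n => F) (i := i + 1) h)⁻¹}

/-- Word length: the least length of a word in elements of `S` and their inverses with value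
`g`. -/
noncomputable def wordLength {G : Type} [Group G] (S : Set G) (g : G) : ℕ :=
  sInf {n | ∃ l : List G, l.length = n ∧ (∀ x ∈ l, x ∈ S ∨ x⁻¹ ∈ S) ∧ l.prod = g}

/-- Word metric `d_S(x, y)`. -/
noncomputable def wordDist {G : Type} [Group G] (S : Set G) (x y : G) : ℝ :=
  (wordLength S (x⁻¹ * y) : ℝ)

/-- Quasi-isometry of finitely generated groups: for some finite generating sets `S` of `G` and
`T` of `H` there is a map `f : G → H` with
`d_S(x,y)/K - C ≤ d_T(f x, f y) ≤ K d_S(x,y) + C` whose image is `C`-dense. -/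
def QuasiIsometric (G H : Type) [Group G] [Group H] : Prop :=
  ∃ (S : Set G) (T : Set H), S.Finite ∧ T.Finite ∧ Subgroup.closure S = ⊤ ∧
    Subgroup.closure T = ⊤ ∧ ∃ (f : G → H) (K C : ℝ), 1 ≤ K ∧ 0 ≤ C ∧
      (∀ x y, wordDist S x y / K - C ≤ wordDist T (f x) (f y) ∧
        wordDist T (f x) (f y) ≤ K * wordDist S x y + C) ∧
      ∀ h, ∃ x, wordDist T (f x) h ≤ C

theorem quasiIsometric_of_QI {G H : Type} [Group G] [Group H] (h : CQ.QI G H) :
    QuasiIsometric G H := by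
  obtain ⟨S, T, hS, hT, hSc, hTc, f, K, C, hf, hfs⟩ := h
  refine ⟨S, T, hS, hT, hSc, hTc, f, (K : ℝ) + 1, C, by linarith [Nat.cast_nonneg (α := ℝ) K],
    Nat.cast_nonneg _, ?_, ?_⟩
  · intro x y
    have h1 : ((CQ.wd T (f x) (f y) : ℕ) : ℝ) ≤ K * (CQ.wd S x y : ℕ) + C := by
      exact_mod_cast (hf x y).1
    have h2 : ((CQ.wd S x y : ℕ) : ℝ) ≤ K * (CQ.wd T (f x) (f y) : ℕ) + C := by
      exact_mod_cast (hf x y).2
    have e1 : wordDist T (f x) (f y) = ((CQ.wd T (f x) (f y) : ℕ) : ℝ) := rfl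
    have e2 : wordDist S x y = ((CQ.wd S x y : ℕ) : ℝ) := rfl
    have p1 : (0 : ℝ) ≤ K := Nat.cast_nonneg _
    have p2 : (0 : ℝ) ≤ C := Nat.cast_nonneg _
    have p3 : (0 : ℝ) ≤ (CQ.wd S x y : ℕ) := Nat.cast_nonneg _
    have p4 : (0 : ℝ) ≤ (CQ.wd T (f x) (f y) : ℕ) := Nat.cast_nonneg _
    rw [e1, e2]
    constructor
    · rw [sub_le_iff_le_add, div_le_iff₀ (by linarith)]
      nlinarith [mul_nonneg p1 p4, mul_nonneg p1 p2]
    · nlinarith
  · intro y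
    obtain ⟨x, hx⟩ := hfs y
    refine ⟨x, ?_⟩
    show ((CQ.wd T (f x) y : ℕ) : ℝ) ≤ C
    exact_mod_cast hx

theorem QI_of_quasiIsometric {G H : Type} [Group G] [Group H] (h : QuasiIsometric G H) :
    CQ.QI G H := by
  obtain ⟨S, T, hS, hT, hSc, hTc, f, K, C, hK, hC, hf, hfs⟩ := h
  refine ⟨S, T, hS, hT, hSc, hTc, f, ⌈K⌉₊, ⌈K * C⌉₊ + ⌈C⌉₊, ?_, ?_⟩
  · intro x y
    have e1 : wordDist T (f x) (f y) = ((CQ.wd T (f x) (f y) : ℕ) : ℝ) := rfl
    have e2 : wordDist S x y = ((CQ.wd S x y : ℕ) : ℝ) := rfl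
    obtain ⟨h1, h2⟩ := hf x y
    rw [e1, e2] at h1 h2
    have k1 : K ≤ (⌈K⌉₊ : ℝ) := Nat.le_ceil _
    have k2 : K * C ≤ (⌈K * C⌉₊ : ℝ) := Nat.le_ceil _
    have k3 : C ≤ (⌈C⌉₊ : ℝ) := Nat.le_ceil _
    have p1 : (0 : ℝ) ≤ (⌈K * C⌉₊ : ℝ) := Nat.cast_nonneg _
    have p2 : (0 : ℝ) ≤ (⌈C⌉₊ : ℝ) := Nat.cast_nonneg _
    have p3 : (0 : ℝ) ≤ (CQ.wd S x y : ℕ) := Nat.cast_nonneg _
    have p4 : (0 : ℝ) ≤ (CQ.wd T (f x) (f y) : ℕ) := Nat.cast_nonneg _
    constructor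
    · have : ((CQ.wd T (f x) (f y) : ℕ) : ℝ) ≤
          (⌈K⌉₊ : ℝ) * (CQ.wd S x y : ℕ) + ((⌈K * C⌉₊ : ℝ) + (⌈C⌉₊ : ℝ)) := by
        have := mul_le_mul_of_nonneg_right k1 p3
        linarith
      exact_mod_cast this
    · have : ((CQ.wd S x y : ℕ) : ℝ) ≤
          (⌈K⌉₊ : ℝ) * (CQ.wd T (f x) (f y) : ℕ) + ((⌈K * C⌉₊ : ℝ) + (⌈C⌉₊ : ℝ)) := by
        rw [sub_le_iff_le_add, div_le_iff₀ (by linarith)] at h1
        have := mul_le_mul_of_nonneg_right k1 p4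
        nlinarith
      exact_mod_cast this
  · intro y
    obtain ⟨x, hx⟩ := hfs y
    refine ⟨x, ?_⟩
    have e1 : wordDist T (f x) y = ((CQ.wd T (f x) y : ℕ) : ℝ) := rfl
    rw [e1] at hx
    have k3 : C ≤ (⌈C⌉₊ : ℝ) := Nat.le_ceil _
    have : ((CQ.wd T (f x) y : ℕ) : ℝ) ≤ (⌈C⌉₊ : ℝ) := hx.trans k3
    have h2 : CQ.wd T (f x) y ≤ ⌈C⌉₊ := by exact_mod_cast this
    omega

/-- There are two infinite, finitely generated, quasi-isometric groups `G` and `H` such that for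
every `n ≥ 5` the graph products `C_n G` and `C_n H` over the `n`-cycle are not quasi-isometric. -/
theorem result : ∃ (G H : Type) (_ : Group G) (_ : Group H),
    Infinite G ∧ Infinite H ∧ Group.FG G ∧ Group.FG H ∧ QuasiIsometric G H ∧
      ∀ n : ℕ, 5 ≤ n → ¬ QuasiIsometric (CycProd n G) (CycProd n H) := by
  have F1 := CQ.mod_LP 4 1
  have F2 := CQ.mod_LP 4 2
  refine ⟨CQ.L 4 1, CQ.L 4 2, inferInstance, inferInstance,
    CQ.FIN.L_infinite 4 1 (by norm_num), CQ.FIN.L_infinite 4 2 (by norm_num), ?_, ?_,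
    quasiIsometric_of_QI (CQ.FIN.QI_L CQ.mod_LP 4), ?_⟩
  · rw [Group.fg_iff]
    exact ⟨CQ.L.gens 4 1, F1.gen, F1.fin⟩
  · rw [Group.fg_iff]
    exact ⟨CQ.L.gens 4 2, F2.gen, F2.fin⟩
  · intro n hn h
    exact CQ.not_QI n hn (QI_of_quasiIsometric h)

end Pool.Agent.Results.MP_74736d_al.CycleGraphProducts
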